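import Pool.Agent.Helper15.DAF.Defs2

open AlgebraicGeometry CategoryTheory TopologicalSpace Opposite

namespace Pool.Agent.Helper15.DAF

variable {X : Scheme.{0}} [IsIntegral X]

/-- The old form of a quasi-coherent module as a new one. -/
noncomputable def toPre {s : X ⟶ Spec (CommRingCat.of ℂ)} (M : QDModule s) : PreD s where
  M := M.M
  grp := M.grp
  mod := M.mod
  res _ _ h := M.res h

theorem isQD_toPre {s : X ⟶ Spec (CommRingCat.of ℂ)} (M : QDModule s) : IsQD (toPre M) := by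
  refine ⟨?_, ?_, ?_, ?_, ?_, ?_⟩
  · intro V W h m m'
    exact (M.res h).map_add m m'
  · intro V m
    exact M.res_self V m
  · intro V W Z h h' m
    exact M.res_res h h' m
  · rintro V W h ⟨P, hP⟩ ⟨Q, hQ⟩ hPQ m
    have h1 : P = Q := hPQ
    subst h1
    exact M.res_smul h P hP hQ m
  · rintro V W h P ⟨f, hf, hP⟩ m hm
    exact M.qc_ker f hf m P hP hm
  · rintro V W h P ⟨f, hf, hP⟩ m
    exact M.qc_surj f hf m P hP

theorem cech_of_half {s : X ⟶ Spec (CommRingCat.of ℂ)} (h : HalfDAffine s) (M : QDModule s) :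
    CechOneZero s M := by
  intro ι _ V hV c hc hcc
  exact h (toPre M) (isQD_toPre M) ι inferInstance V hV c hc hcc

theorem finite_of_new {s : X ⟶ Spec (CommRingCat.of ℂ)} (h : FiniteOverVF s) :
    FiniteOverVectorFields s := by
  obtain ⟨S, hS, hSD, hgen⟩ := h
  let S' : Finset (Module.End ℂ (FF s)) := hS.toFinset
  have hS' : ∀ a : Op s, a ∈ S → (a : Module.End ℂ (FF s)) ∈ S' :=
    fun a ha => hS.mem_toFinset.2 ha
  refine ⟨S', ?_, ?_⟩
  · intro a ha
    exact Algebra.mem_iInf.2 fun V => hSD (hS.mem_toFinset.1 ha) V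
  · intro P hP
    have h1 : P ∈ Submodule.span ℂ (Prods s S) := hgen P fun V => Algebra.mem_iInf.1 hP V
    refine Submodule.span_induction (p := fun Q _ => (Q : Module.End ℂ (FF s)) ∈
      Submodule.span ℂ {Q : Module.End ℂ (FF s) | ∃ u ∈ Algebra.adjoin ℂ (globalT s),
        ∃ a ∈ S', Q = u * a}) ?_ ?_ ?_ ?_ h1
    · rintro Q ⟨u, hu, a, ha, rfl⟩
      exact Submodule.subset_span ⟨u, hu, a, hS' a ha, rfl⟩
    · exact Submodule.zero_mem _
    · intro x y _ _ hx hy
      exact Submodule.add_mem _ hx hy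
    · intro c x _ hx
      exact Submodule.smul_mem _ c hx

theorem gen_to_new {s : X ⟶ Spec (CommRingCat.of ℂ)} (V : Aff X) (d : Module.End ℂ (FF s))
    (h : d ∈ Submodule.span ℂ {e : Module.End ℂ (FF s) | ∃ a ∈ O s V, ∃ v ∈ globalT s,
      e = mulOp a * v}) : (d : Op s) ∈ Submodule.span ℂ (FT s V) := by
  refine Submodule.span_induction (p := fun Q _ => (Q : Op s) ∈ Submodule.span ℂ (FT s V))
    ?_ ?_ ?_ ?_ h
  · rintro Q ⟨a, ha, v, hv, rfl⟩
    exact Submodule.subset_span ⟨a, ha, v, hv, rfl⟩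
  · exact Submodule.zero_mem (Submodule.span ℂ (FT s V))
  · intro x y _ _ hx hy
    exact Submodule.add_mem (Submodule.span ℂ (FT s V)) hx hy
  · intro c x _ hx
    exact Submodule.smul_mem (Submodule.span ℂ (FT s V)) c hx

end Pool.Agent.Helper15.DAF
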