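import Mathlib

/-!
# D-affine varieties: definitions

`X` is an integral scheme over `ℂ` (structure morphism `s`).  Everything is expressed inside the
function field `FF s` of `X`, regarded as a `ℂ`-algebra.
-/

open AlgebraicGeometry CategoryTheory TopologicalSpace Opposite

namespace Pool.Agent.Helper15.DAF

section Algebra

variable {K : Type} [Field K] [Algebra ℂ K]

/-- The `ℂ`-linear derivations of the field `K` which map the subalgebra `B` into itself
(if `K` is the field of fractions of `B`, these are the `ℂ`-derivations of `B`). -/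
def Der (B : Subalgebra ℂ K) : Set (Module.End ℂ K) :=
  {d | (∀ a b : K, d (a * b) = a * d b + b * d a) ∧ ∀ b ∈ B, d b ∈ B}

/-- Multiplication by `a`, an operator on `K`. -/
noncomputable def mulOp (a : K) : Module.End ℂ K := LinearMap.mulLeft ℂ a

/-- The ring of operators generated by the multiplications by elements of `B` and by the
derivations of `B`. -/
noncomputable def Dop (B : Subalgebra ℂ K) : Subalgebra ℂ (Module.End ℂ K) :=
  Algebra.adjoin ℂ ({P | ∃ b ∈ B, P = mulOp b} ∪ Der B)

/-- Local coordinates `y i`, `t i` on `B`: derivations `t i` and functions `y i` with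
`t i (y j) = δ_ij` such that every derivation `d` of `B` is `∑ d (y i) · t i`. -/
def IsCoord (B : Subalgebra ℂ K) (n : ℕ) (t : Fin n → Module.End ℂ K) (y : Fin n → K) : Prop :=
  (∀ i, t i ∈ Der B) ∧ (∀ i, y i ∈ B) ∧ (∀ i j, t i (y j) = if i = j then 1 else 0) ∧
    ∀ d ∈ Der B, d = ∑ i, mulOp (d (y i)) * t i

end Algebra

/-- The ring of functions on the open subset `U` of `X`. -/
def Fn (X : Scheme.{0}) (U : X.Opens) : Type := Γ(X, U)

noncomputable instance instCommRingFn (X : Scheme.{0}) (U : X.Opens) : CommRing (Fn X U) :=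
  (inferInstance : CommRing Γ(X, U))

/-- The complex numbers as functions on `Spec ℂ`. -/
noncomputable def constSpec : ℂ →+* Fn (Spec (CommRingCat.of ℂ)) ⊤ :=
  (Scheme.ΓSpecIso (CommRingCat.of ℂ)).inv.hom

/-- Pull-back of functions from `Spec ℂ` to `X`. -/
noncomputable def pullC {X : Scheme.{0}} (s : X ⟶ Spec (CommRingCat.of ℂ)) :
    Fn (Spec (CommRingCat.of ℂ)) ⊤ →+* Fn X ⊤ := (s.appTop).hom

/-- The complex numbers as functions on `X`. -/
noncomputable def constX {X : Scheme.{0}} (s : X ⟶ Spec (CommRingCat.of ℂ)) : ℂ →+* Fn X ⊤ :=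
  (pullC s).comp constSpec

variable {X : Scheme.{0}} [IsIntegral X] (s : X ⟶ Spec (CommRingCat.of ℂ))

/-- The function field of `X`. -/
def FF (_ : X ⟶ Spec (CommRingCat.of ℂ)) : Type := X.functionField

noncomputable instance instFieldFF : Field (FF s) := (inferInstance : Field X.functionField)

instance instNonemptyTop : Nonempty (⊤ : X.Opens) :=
  ⟨⟨genericPoint X, trivial⟩⟩

/-- A function on `X` as an element of the function field. -/
noncomputable def germTop : Fn X ⊤ →+* FF s := (X.germToFunctionField ⊤).hom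

/-- The map from the constants to the function field. -/
noncomputable def constHom : ℂ →+* FF s := (germTop s).comp (constX s)

noncomputable instance instAlgebraFF : Algebra ℂ (FF s) := (constHom s).toAlgebra

/-- Nonempty affine open subsets of `X`. -/
structure Aff (X : Scheme.{0}) where
  /-- the open set -/
  U : X.Opens
  /-- it is affine -/
  aff : IsAffineOpen U
  /-- it is not empty -/
  ne : Nonempty U

instance (V : Aff X) : Nonempty V.U := V.ne

/-- A function on `V` as an element of the function field. -/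
noncomputable def ev (V : Aff X) : Γ(X, V.U) →+* FF s := (X.germToFunctionField V.U).hom

/-- The functions on `V`, inside the function field. -/
noncomputable def O (V : Aff X) : Subalgebra ℂ (FF s) :=
  { (ev s V).range with
    algebraMap_mem' := by
      intro c
      refine ⟨X.presheaf.map (homOfLE le_top).op
        ((s.appTop).hom ((Scheme.ΓSpecIso (CommRingCat.of ℂ)).inv.hom c)), ?_⟩
      change (X.germToFunctionField V.U).hom _ = (X.germToFunctionField ⊤).hom _
      exact X.presheaf.germ_res_apply (homOfLE le_top) (genericPoint X) _ _ }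

/-- The functions on `V` which vanish at the point `x` (all functions if `x` is not in `V`). -/
def van (x : X) (V : Aff X) : Set (FF s) :=
  {a | ∃ f : Γ(X, V.U), x ∉ X.basicOpen f ∧ ev s V f = a}

/-- A quasi-coherent left `D_X`-module, given by its sections on the nonempty affine open sets. -/
structure QDModule where
  /-- sections -/
  M : Aff X → Type
  [grp : ∀ V, AddCommGroup (M V)]
  [mod : ∀ V, Module (Dop (O s V)) (M V)]
  /-- restriction -/
  res : ∀ {V W : Aff X}, W.U ≤ V.U → M V →+ M W
  res_self : ∀ (V : Aff X) (m : M V), res (le_refl V.U) m = m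
  res_res : ∀ {V W Z : Aff X} (h : W.U ≤ V.U) (h' : Z.U ≤ W.U) (m : M V),
    res h' (res h m) = res (h'.trans h) m
  res_smul : ∀ {V W : Aff X} (h : W.U ≤ V.U) (P : Module.End ℂ (FF s))
    (hV : P ∈ Dop (O s V)) (hW : P ∈ Dop (O s W)) (m : M V),
    res h ((⟨P, hV⟩ : Dop (O s V)) • m) = (⟨P, hW⟩ : Dop (O s W)) • res h m
  /-- quasi-coherence: sections on `D(f)` are the localisation at `f` (kernel) -/
  qc_ker : ∀ {V W : Aff X} (f : Γ(X, V.U)) (h : W.U = X.basicOpen f) (m : M V)
    (P : Dop (O s V)), (P : Module.End ℂ (FF s)) = mulOp (ev s V f) →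
    res (h.le.trans (X.basicOpen_le f)) m = 0 → ∃ n : ℕ, P ^ n • m = 0
  /-- quasi-coherence: sections on `D(f)` are the localisation at `f` (image) -/
  qc_surj : ∀ {V W : Aff X} (f : Γ(X, V.U)) (h : W.U = X.basicOpen f) (m : M W)
    (P : Dop (O s W)), (P : Module.End ℂ (FF s)) = mulOp (ev s V f) →
    ∃ (n : ℕ) (m' : M V), res (h.le.trans (X.basicOpen_le f)) m' = P ^ n • m

attribute [instance] QDModule.grp QDModule.mod

/-- The first Čech cohomology of `M` vanishes for every finite cover of `X` by affine open sets. -/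
def CechOneZero (M : QDModule s) : Prop :=
  ∀ (ι : Type) [Finite ι] (V : ι → Aff X), (∀ x : X, ∃ i, x ∈ (V i).U) →
    ∀ c : (∀ (i j : ι) (W : Aff X), W.U ≤ (V i).U → W.U ≤ (V j).U → M.M W),
    (∀ (i j : ι) (W W' : Aff X) (hi : W.U ≤ (V i).U) (hj : W.U ≤ (V j).U) (h : W'.U ≤ W.U),
      M.res h (c i j W hi hj) = c i j W' (h.trans hi) (h.trans hj)) →
    (∀ (i j k : ι) (W : Aff X) (hi : W.U ≤ (V i).U) (hj : W.U ≤ (V j).U) (hk : W.U ≤ (V k).U),
      c i j W hi hj + c j k W hj hk = c i k W hi hk) →
    ∃ m : (∀ i, M.M (V i)), ∀ (i j : ι) (W : Aff X) (hi : W.U ≤ (V i).U) (hj : W.U ≤ (V j).U),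
      c i j W hi hj = M.res hj (m j) - M.res hi (m i)

/-- Global differential operators `Γ(X, D_X)`. -/
noncomputable def globalD : Subalgebra ℂ (Module.End ℂ (FF s)) := ⨅ V : Aff X, Dop (O s V)

/-- Global vector fields `Γ(X, T_X)`. -/
def globalT : Set (Module.End ℂ (FF s)) := {v | ∀ V : Aff X, v ∈ Der (O s V)}

/-- `Γ(X, D_X)` is a finitely generated left module over its subalgebra generated by the global
vector fields. -/
def FiniteOverVectorFields : Prop :=
  ∃ S : Finset (Module.End ℂ (FF s)), (∀ a ∈ S, a ∈ globalD s) ∧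
    ∀ P ∈ globalD s, P ∈ Submodule.span ℂ
      {Q | ∃ u ∈ Algebra.adjoin ℂ (globalT s), ∃ a ∈ S, Q = u * a}

end Pool.Agent.Helper15.DAF
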