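import Pool.Agent.Helper15.DAF.Defs

/-!
# D-affine varieties: definitions for the statement

Quasi-coherent left `D_X`-modules on the nonempty affine open subsets of `X`, the vanishing of
their first cohomology, and finiteness of `Γ(X, D_X)` over the vector fields.
-/

open AlgebraicGeometry CategoryTheory TopologicalSpace Opposite

namespace Pool.Agent.Helper15.DAF

variable {X : Scheme.{0}} [IsIntegral X]

/-- The ring of all `ℂ`-linear operators on the function field. -/
def Op (s : X ⟶ Spec (CommRingCat.of ℂ)) : Type := Module.End ℂ (FF s)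

noncomputable instance instRingOp (s : X ⟶ Spec (CommRingCat.of ℂ)) : Ring (Op s) :=
  (inferInstance : Ring (Module.End ℂ (FF s)))

noncomputable instance instAlgebraOp (s : X ⟶ Spec (CommRingCat.of ℂ)) : Algebra ℂ (Op s) :=
  (inferInstance : Algebra ℂ (Module.End ℂ (FF s)))

/-- An element of `Op s` as an endomorphism. -/
noncomputable def en {s : X ⟶ Spec (CommRingCat.of ℂ)} (P : Op s) : Module.End ℂ (FF s) := P

/-- Multiplication by the element `a` of the function field. -/
noncomputable def mulF {s : X ⟶ Spec (CommRingCat.of ℂ)} (a : FF s) : Op s := mulOp a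

/-- The functions on `V` as elements of the function field. -/
noncomputable def evR (s : X ⟶ Spec (CommRingCat.of ℂ)) (V : Aff X) : Fn X V.U →+* FF s := ev s V

/-- `W` is the basic open subset `D(f)` of `V` and `P` is the multiplication by `f`, for some
function `f` on `V`. -/
def IsBasic {s : X ⟶ Spec (CommRingCat.of ℂ)} (V W : Aff X) (P : Op s) : Prop :=
  ∃ f : Fn X V.U, W.U = X.basicOpen f ∧ P = mulF (evR s V f)

/-- The ring `D(V)` of differential operators on `V`, generated by functions and derivations. -/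
def DR (s : X ⟶ Spec (CommRingCat.of ℂ)) (V : Aff X) : Type := Dop (O s V)

noncomputable instance instRingDR (s : X ⟶ Spec (CommRingCat.of ℂ)) (V : Aff X) :
    Ring (DR s V) := (inferInstance : Ring (Dop (O s V)))

/-- An element of `D(V)` as an operator on the function field. -/
noncomputable def op {s : X ⟶ Spec (CommRingCat.of ℂ)} {V : Aff X} (P : DR s V) : Op s := P.1

/-- Data of a presheaf of left `D`-modules on the nonempty affine open sets. -/
structure PreD (s : X ⟶ Spec (CommRingCat.of ℂ)) where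
  /-- sections -/
  M : Aff X → Type
  /-- addition of sections -/
  grp : ∀ V, AddCommGroup (M V)
  /-- action of `D(V)` on the sections on `V` -/
  mod : ∀ V, Module (DR s V) (M V)
  /-- restriction -/
  res : ∀ V W : Aff X, W.U ≤ V.U → M V → M W

attribute [instance] PreD.grp PreD.mod

/-- Restriction is additive. -/
def ResAdd {s : X ⟶ Spec (CommRingCat.of ℂ)} (M : PreD s) : Prop :=
  ∀ (V W : Aff X) (h : W.U ≤ V.U) (m m' : M.M V),
    M.res V W h (m + m') = M.res V W h m + M.res V W h m'

/-- Restriction from `V` to `V` is the identity. -/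
def ResId {s : X ⟶ Spec (CommRingCat.of ℂ)} (M : PreD s) : Prop :=
  ∀ (V : Aff X) (m : M.M V), M.res V V le_rfl m = m

/-- Restriction is transitive. -/
def ResComp {s : X ⟶ Spec (CommRingCat.of ℂ)} (M : PreD s) : Prop :=
  ∀ (V W Z : Aff X) (h : W.U ≤ V.U) (h' : Z.U ≤ W.U) (m : M.M V),
    M.res W Z h' (M.res V W h m) = M.res V Z (h'.trans h) m

/-- Restriction commutes with differential operators. -/
def ResSmul {s : X ⟶ Spec (CommRingCat.of ℂ)} (M : PreD s) : Prop :=
  ∀ (V W : Aff X) (h : W.U ≤ V.U) (P : DR s V) (Q : DR s W), op P = op Q →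
    ∀ m : M.M V, M.res V W h (P • m) = Q • M.res V W h m

/-- Quasi-coherence: a section on `V` which vanishes on `W = D(f)` is killed by a power of `f`. -/
def QcKer {s : X ⟶ Spec (CommRingCat.of ℂ)} (M : PreD s) : Prop :=
  ∀ (V W : Aff X) (h : W.U ≤ V.U) (P : DR s V), IsBasic V W (op P) →
    ∀ m : M.M V, M.res V W h m = 0 → ∃ n : ℕ, P ^ n • m = 0

/-- Quasi-coherence: a section on `W = D(f)` times a power of `f` extends to `V`. -/
def QcSurj {s : X ⟶ Spec (CommRingCat.of ℂ)} (M : PreD s) : Prop :=
  ∀ (V W : Aff X) (h : W.U ≤ V.U) (P : DR s W), IsBasic V W (op P) →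
    ∀ m : M.M W, ∃ (n : ℕ) (m' : M.M V), M.res V W h m' = P ^ n • m

/-- `M` is a quasi-coherent left `D_X`-module. -/
def IsQD {s : X ⟶ Spec (CommRingCat.of ℂ)} (M : PreD s) : Prop :=
  ResAdd M ∧ ResId M ∧ ResComp M ∧ ResSmul M ∧ QcKer M ∧ QcSurj M

/-- Families `c i j W` of sections of `M` on the affine open subsets `W` of `V i ∩ V j`. -/
def Coch {s : X ⟶ Spec (CommRingCat.of ℂ)} (M : PreD s) {ι : Type} (V : ι → Aff X) : Type :=
  ∀ (i j : ι) (W : Aff X), W.U ≤ (V i).U → W.U ≤ (V j).U → M.M W

/-- The sections `c i j W` are compatible with restriction: they give a section `c i j` of `M`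
on `V i ∩ V j`. -/
def Compat {s : X ⟶ Spec (CommRingCat.of ℂ)} (M : PreD s) {ι : Type} (V : ι → Aff X)
    (c : Coch M V) : Prop :=
  ∀ (i j : ι) (W W' : Aff X) (hi : W.U ≤ (V i).U) (hj : W.U ≤ (V j).U) (h : W'.U ≤ W.U),
    M.res W W' h (c i j W hi hj) = c i j W' (h.trans hi) (h.trans hj)

/-- `c` is a cocycle. -/
def Cocyc {s : X ⟶ Spec (CommRingCat.of ℂ)} (M : PreD s) {ι : Type} (V : ι → Aff X)
    (c : Coch M V) : Prop :=
  ∀ (i j k : ι) (W : Aff X) (hi : W.U ≤ (V i).U) (hj : W.U ≤ (V j).U) (hk : W.U ≤ (V k).U),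
    c i j W hi hj + c j k W hj hk = c i k W hi hk

/-- `c` is a coboundary. -/
def Cobound {s : X ⟶ Spec (CommRingCat.of ℂ)} (M : PreD s) {ι : Type} (V : ι → Aff X)
    (c : Coch M V) : Prop :=
  ∃ m : (∀ i, M.M (V i)), ∀ (i j : ι) (W : Aff X) (hi : W.U ≤ (V i).U) (hj : W.U ≤ (V j).U),
    c i j W hi hj = M.res (V j) W hj (m j) - M.res (V i) W hi (m i)

/-- The first Čech cohomology of `M` vanishes for every finite cover of `X` by affine open sets. -/
def CechOne {s : X ⟶ Spec (CommRingCat.of ℂ)} (M : PreD s) : Prop :=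
  ∀ (ι : Type) (_ : Finite ι) (V : ι → Aff X), (∀ x : X, ∃ i, x ∈ (V i).U) →
    ∀ c : Coch M V, Compat M V c → Cocyc M V c → Cobound M V c

/-- The first cohomology of every quasi-coherent left `D_X`-module vanishes. -/
def HalfDAffine (s : X ⟶ Spec (CommRingCat.of ℂ)) : Prop := ∀ M : PreD s, IsQD M → CechOne M

/-- `v` is a vector field on `V`. -/
def IsVF {s : X ⟶ Spec (CommRingCat.of ℂ)} (V : Aff X) (v : Op s) : Prop := en v ∈ Der (O s V)

/-- Global vector fields. -/
def gT (s : X ⟶ Spec (CommRingCat.of ℂ)) : Set (Op s) := {v | ∀ V : Aff X, IsVF V v}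

/-- Global differential operators. -/
def gD (s : X ⟶ Spec (CommRingCat.of ℂ)) : Set (Op s) := {P | ∀ V : Aff X, en P ∈ Dop (O s V)}

/-- The algebra generated by the global vector fields. -/
noncomputable def Ug (s : X ⟶ Spec (CommRingCat.of ℂ)) : Subalgebra ℂ (Op s) :=
  Algebra.adjoin ℂ (gT s)

/-- The products `u a` with `u` in the algebra generated by the global vector fields, `a ∈ S`. -/
def Prods (s : X ⟶ Spec (CommRingCat.of ℂ)) (S : Set (Op s)) : Set (Op s) :=
  {Q | ∃ u ∈ Ug s, ∃ a ∈ S, Q = u * a}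

/-- `Γ(X, D_X)` is a finitely generated left module over its subalgebra generated by the global
vector fields. -/
def FiniteOverVF (s : X ⟶ Spec (CommRingCat.of ℂ)) : Prop :=
  ∃ S : Set (Op s), S.Finite ∧ S ⊆ gD s ∧ ∀ P ∈ gD s, P ∈ Submodule.span ℂ (Prods s S)

/-- The products `a v` of a function on `V` and a global vector field. -/
def FT (s : X ⟶ Spec (CommRingCat.of ℂ)) (V : Aff X) : Set (Op s) :=
  {e | ∃ a ∈ O s V, ∃ v ∈ gT s, e = mulF a * v}

/-- The tangent sheaf of `X` is generated by its global sections: every vector field on an affine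
open set `V` is a sum of products of functions on `V` and global vector fields. -/
def TangentGenerated (s : X ⟶ Spec (CommRingCat.of ℂ)) : Prop :=
  ∀ (V : Aff X) (d : Op s), IsVF V d → d ∈ Submodule.span ℂ (FT s V)

end Pool.Agent.Helper15.DAF
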