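import Pool.Agent.Helper15.DAF.Stmts

open AlgebraicGeometry CategoryTheory TopologicalSpace Opposite

namespace Pool.Agent.Helper15.DAF

namespace SH

/-- `Dop B` acts on `Jm B m` by multiplication on the left. -/
noncomputable instance instModJm {K : Type} [Field K] [Algebra ℂ K] (B : Subalgebra ℂ K)
    (m : Set K) : Module (Dop B) (Jm B m) where
  smul P Q := ⟨(P : Module.End ℂ K) * (Q : Module.End ℂ K), mul_mem_Jm P.2 Q.2⟩
  one_smul _ := Subtype.ext (one_mul _)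
  mul_smul _ _ _ := Subtype.ext (mul_assoc _ _ _)
  smul_zero _ := Subtype.ext (mul_zero _)
  smul_add _ _ _ := Subtype.ext (mul_add _ _ _)
  add_smul _ _ _ := Subtype.ext (add_mul _ _ _)
  zero_smul _ := Subtype.ext (zero_mul _)

theorem coe_smul {K : Type} [Field K] [Algebra ℂ K] (B : Subalgebra ℂ K)
    (m : Set K) (P : Dop B) (Q : Jm B m) :
    ((P • Q : Jm B m) : Module.End ℂ K) = (P : Module.End ℂ K) * (Q : Module.End ℂ K) := rfl

theorem mulOp_mul {K : Type} [Field K] [Algebra ℂ K] (a b : K) :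
    (mulOp (a * b) : Module.End ℂ K) = mulOp a * mulOp b := by
  ext z; simp [mulOp]

theorem mulOp_one {K : Type} [Field K] [Algebra ℂ K] :
    (mulOp (1 : K) : Module.End ℂ K) = 1 := by
  ext z; simp [mulOp]

theorem mulOp_pow {K : Type} [Field K] [Algebra ℂ K] (a : K) (n : ℕ) :
    (mulOp (a ^ n) : Module.End ℂ K) = mulOp a ^ n := by
  induction n with
  | zero => simp [mulOp_one]
  | succ n ih => rw [pow_succ, mulOp_mul, ih, pow_succ]

theorem mulOp_mem {K : Type} [Field K] [Algebra ℂ K] {B : Subalgebra ℂ K} {a : K} (h : a ∈ B) :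
    mulOp a ∈ Dop B := Algebra.subset_adjoin (Or.inl ⟨a, h, rfl⟩)

theorem Jm_le {K : Type} [Field K] [Algebra ℂ K] {B : Subalgebra ℂ K} {m : Set K}
    (hm : ∀ a ∈ m, a ∈ B) {Q : Module.End ℂ K} (hQ : Q ∈ Jm B m) : Q ∈ Dop B := by
  unfold Jm at hQ
  induction hQ using Submodule.span_induction with
  | mem x hx =>
    obtain ⟨R, hR, g, hg, rfl⟩ := hx
    exact (Dop B).mul_mem hR (mulOp_mem (hm g hg))
  | zero => exact (Dop B).zero_mem
  | add x y _ _ hx hy => exact (Dop B).add_mem hx hy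
  | smul c x _ hx => exact (Dop B).smul_mem hx c

theorem Jm_mono {K : Type} [Field K] [Algebra ℂ K] {B C : Subalgebra ℂ K} {m m' : Set K}
    (hD : Dop B ≤ Dop C) (hm : m ⊆ m') : Jm B m ≤ Jm C m' := by
  refine Submodule.span_mono ?_
  rintro Q ⟨P, hP, g, hg, rfl⟩
  exact ⟨P, hD hP, g, hm hg, rfl⟩

theorem Jm_of_one {K : Type} [Field K] [Algebra ℂ K] {B : Subalgebra ℂ K} {m : Set K}
    (h1 : (1 : K) ∈ m) {Q : Module.End ℂ K} (hQ : Q ∈ Dop B) : Q ∈ Jm B m :=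
  Submodule.subset_span ⟨Q, hQ, 1, h1, by rw [mulOp_one, mul_one]⟩

theorem Jm_loc (hORE : ST_ORE) {K : Type} [Field K] [Algebra ℂ K] {B V : Subalgebra ℂ K}
    {m m' : Set K} {f : K} (hL : IsLoc B V f) (hfg : B.FG)
    (hm : ∀ a ∈ m', ∃ n : ℕ, f ^ n * a ∈ m) (Q : Module.End ℂ K) (hQ : Q ∈ Jm V m') :
    ∃ n : ℕ, mulOp (f ^ n) * Q ∈ Jm B m := by
  have hup : ∀ (n : ℕ) (R : Module.End ℂ K), R ∈ Jm B m → mulOp (f ^ n) * R ∈ Jm B m :=
    fun n R hR => mul_mem_Jm (mulOp_mem (B.pow_mem hL.mem n)) hR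
  unfold Jm at hQ
  induction hQ using Submodule.span_induction with
  | mem x hx =>
    obtain ⟨R, hR, g, hg, rfl⟩ := hx
    obtain ⟨k, hk⟩ := hm g hg
    obtain ⟨N, hN⟩ := hORE K B V f hL hfg (R * mulOp (f⁻¹ ^ k))
      ((Dop V).mul_mem hR (mulOp_mem (V.pow_mem hL.inv k)))
    refine ⟨N, ?_⟩
    refine Submodule.subset_span ⟨mulOp (f ^ N) * (R * mulOp (f⁻¹ ^ k)), hN, f ^ k * g, hk, ?_⟩
    have hf : f⁻¹ ^ k * (f ^ k * g) = g := by
      rw [← mul_assoc, ← mul_pow, inv_mul_cancel₀ hL.ne, one_pow, one_mul]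
    calc mulOp (f ^ N) * (R * mulOp g) = mulOp (f ^ N) * (R * mulOp (f⁻¹ ^ k * (f ^ k * g))) := by
          rw [hf]
      _ = mulOp (f ^ N) * (R * mulOp (f⁻¹ ^ k)) * mulOp (f ^ k * g) := by
          rw [mulOp_mul (f⁻¹ ^ k)]; simp only [mul_assoc]
  | zero => exact ⟨0, by rw [mul_zero]; exact Submodule.zero_mem _⟩
  | add x y _ _ hx hy =>
    obtain ⟨a, ha⟩ := hx
    obtain ⟨b, hb⟩ := hy
    refine ⟨a + b, ?_⟩
    rw [mul_add]
    refine Submodule.add_mem _ ?_ ?_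
    · rw [pow_add, mul_comm, mulOp_mul, mul_assoc]; exact hup b _ ha
    · rw [pow_add, mulOp_mul, mul_assoc]; exact hup a _ hb
  | smul c x _ hx =>
    obtain ⟨a, ha⟩ := hx
    exact ⟨a, by rw [mul_smul_comm]; exact Submodule.smul_mem _ c ha⟩

variable {X : Scheme.{0}} [IsIntegral X] (s : X ⟶ Spec (CommRingCat.of ℂ)) 

/-- inclusion -/
noncomputable def resJ {K : Type} [Field K] [Algebra ℂ K] {B C : Subalgebra ℂ K} {m m' : Set K}
    (h : ∀ Q ∈ Jm B m, Q ∈ Jm C m') : Jm B m →+ Jm C m' :=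
  AddMonoidHom.mk' (fun Q => ⟨Q.1, h Q.1 Q.2⟩) (fun _ _ => Subtype.ext rfl)

theorem coe_resJ {K : Type} [Field K] [Algebra ℂ K] {B C : Subalgebra ℂ K} {m m' : Set K}
    (h : ∀ Q ∈ Jm B m, Q ∈ Jm C m') (Q : Jm B m) :
    (resJ h Q).1 = Q.1 := by
  unfold resJ
  rw [AddMonoidHom.mk'_apply]

theorem coe_pow_smul {K : Type} [Field K] [Algebra ℂ K] (B : Subalgebra ℂ K)
    (m : Set K) (P : Dop B) (f : K) (hP : (P : Module.End ℂ K) = mulOp f) (n : ℕ) (Q : Jm B m) :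
    ((P ^ n • Q : Jm B m) : Module.End ℂ K) = mulOp (f ^ n) * (Q : Module.End ℂ K) := by
  rw [coe_smul, SubmonoidClass.coe_pow, hP, mulOp_pow]

/-- The `D`-module `K_x = D · m_x`. -/
noncomputable def KX [LocallyOfFiniteType s] (hORE : ST_ORE) (hDM : ST_DMONO) (hVL : ST_VANLOC)
    (hSL : ST_SLOC) (hFG : ST_SFG) (x : X) : QDModule s where
  M V := Jm (O s V) (van s x V)
  grp V := inferInstance
  mod V := instModJm (O s V) (van s x V)
  res {V W} h := resJ (fun _ hQ => Jm_mono (hDM X s V W h).2 ((hVL X s x V W).1 h) hQ)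
  res_self V m := Subtype.ext (coe_resJ _ _)
  res_res h h' m := Subtype.ext (by rw [coe_resJ, coe_resJ, coe_resJ])
  res_smul h P hV hW m := Subtype.ext (by rw [coe_resJ, coe_smul, coe_smul, coe_resJ])
  qc_ker {V W} f h m P hP hm := by
    refine ⟨0, ?_⟩
    have h1 := congrArg Subtype.val hm
    rw [coe_resJ] at h1
    apply Subtype.ext
    rw [coe_pow_smul _ _ P _ hP, h1]
    exact mul_zero _
  qc_surj {V W} f h m P hP := by
    obtain ⟨n, hn⟩ := Jm_loc hORE (hSL X s V W f h) (hFG X s V) ((hVL X s x V W).2 f h)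
      (m : Module.End ℂ (FF s)) m.2
    refine ⟨n, ⟨_, hn⟩, ?_⟩
    apply Subtype.ext
    rw [coe_pow_smul _ _ P _ hP, coe_resJ]

theorem KX_res [LocallyOfFiniteType s] (hORE : ST_ORE) (hDM : ST_DMONO) (hVL : ST_VANLOC)
    (hSL : ST_SLOC) (hFG : ST_SFG) (x : X) {V W : Aff X} (h : W.U ≤ V.U)
    (m : Jm (O s V) (van s x V)) :
    (show Jm (O s W) (van s x W) from (KX s hORE hDM hVL hSL hFG x).res h m).1 = m.1 :=
  coe_resJ (fun _ hQ => Jm_mono (hDM X s V W h).2 ((hVL X s x V W).1 h) hQ) m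

end SH

theorem st_H (hORE : ST_ORE) (hDM : ST_DMONO) (hDG : ST_DGLUE) (hVA : ST_VAN) (hVL : ST_VANLOC)
    (hSL : ST_SLOC) (hSB : ST_SBASIC) (hFG : ST_SFG) : ST_H := by
  intro X _ _ s _ hM x hx V hxV P hP
  have hE : ∀ z : X, ∃ W : Aff X, z ∈ W.U ∧ (z = x → W = V) ∧ (z ≠ x → x ∉ W.U) := by
    intro z
    by_cases hz : z = x
    · subst hz
      exact ⟨V, hxV, fun _ => rfl, fun h => absurd rfl h⟩
    · obtain ⟨_, ⟨A, hA, rfl⟩, hzA, -⟩ :=
        X.isBasis_affineOpens.exists_subset_of_mem_open (Set.mem_univ z) isOpen_univ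
      let A' : Aff X := ⟨A, hA, ⟨⟨z, hzA⟩⟩⟩
      obtain ⟨f, Z, hZ, hzZ, hZW⟩ := hSB X A' ⟨{x}ᶜ, hx.isOpen_compl⟩ z hzA hz
      exact ⟨Z, hzZ, fun h => absurd h hz, fun _ hxZ => (hZW hxZ) rfl⟩
  choose W hzW hWx hWn using hE
  obtain ⟨T, hT⟩ := isCompact_univ.elim_finite_subcover (fun z : X => ((W z).U : Set X))
    (fun z => (W z).U.isOpen) (fun z _ => Set.mem_iUnion.2 ⟨z, hzW z⟩)
  have hcov : ∀ z : X, ∃ i : T, z ∈ (W i.1).U := by
    intro z
    obtain ⟨i, hi⟩ := Set.mem_iUnion.1 (hT (Set.mem_univ z))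
    obtain ⟨hiT, hzi⟩ := Set.mem_iUnion.1 hi
    exact ⟨⟨i, hiT⟩, hzi⟩
  have hxT : x ∈ T := by
    obtain ⟨⟨i, hiT⟩, hi⟩ := hcov x
    by_cases h : i = x
    · exact h ▸ hiT
    · exact absurd hi (hWn i h)
  classical
  let p : T → Module.End ℂ (FF s) := fun i => if i.1 = x then P else 0
  have hp : ∀ (i j : T) (Z : Aff X), Z.U ≤ (W i.1).U → Z.U ≤ (W j.1).U →
      p i - p j ∈ Jm (O s Z) (van s x Z) := by
    intro i j Z hi hj
    have hone : x ∉ Z.U → ∀ Q ∈ Dop (O s Z), Q ∈ Jm (O s Z) (van s x Z) :=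
      fun h Q hQ => SH.Jm_of_one ((hVA X s x Z).2.2.2.2.2 h) hQ
    by_cases hi' : i.1 = x <;> by_cases hj' : j.1 = x
    · simp only [p, hi', hj', if_true, sub_self]; exact Submodule.zero_mem _
    · simp only [p, hi', hj', if_true, if_false, sub_zero]
      have hZV : Z.U ≤ V.U := by rw [hWx i.1 hi'] at hi; exact hi
      exact hone (fun h => hWn j.1 hj' (hj h)) P ((hDM X s V Z hZV).2 hP)
    · simp only [p, hi', hj', if_true, if_false, zero_sub]
      have hZV : Z.U ≤ V.U := by rw [hWx j.1 hj'] at hj; exact hj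
      exact Submodule.neg_mem _ (hone (fun h => hWn i.1 hi' (hi h)) P ((hDM X s V Z hZV).2 hP))
    · simp only [p, hi', hj', if_false, sub_self]; exact Submodule.zero_mem _
  obtain ⟨m, hm⟩ := hM (SH.KX s hORE hDM hVL hSL hFG x) T (fun i => W i.1) hcov
    (fun i j Z hi hj => ⟨p i - p j, hp i j Z hi hj⟩)
    (fun i j Z Z' hi hj h => Subtype.ext (SH.KX_res s hORE hDM hVL hSL hFG x h _))
    (fun i j k Z hi hj hk => Subtype.ext (sub_add_sub_cancel _ _ _))
  have hglue : ∀ i j : T, p i + (m i).1 = p j + (m j).1 := by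
    intro i j
    have hmeet : genericPoint X ∈ (W i.1).U ⊓ (W j.1).U := by
      constructor
      · exact ((genericPoint_spec X).mem_open_set_iff (W i.1).U.isOpen).mpr
          (by obtain ⟨a⟩ := (W i.1).ne; exact ⟨a.1, trivial, a.2⟩)
      · exact ((genericPoint_spec X).mem_open_set_iff (W j.1).U.isOpen).mpr
          (by obtain ⟨a⟩ := (W j.1).ne; exact ⟨a.1, trivial, a.2⟩)
    obtain ⟨f, Z, hZ, hz, hZW⟩ := hSB X (W i.1) ((W i.1).U ⊓ (W j.1).U) (genericPoint X)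
      hmeet.1 hmeet
    have hi : Z.U ≤ (W i.1).U := hZW.trans inf_le_left
    have hj : Z.U ≤ (W j.1).U := hZW.trans inf_le_right
    have h' : p i - p j = (m j).1 - (m i).1 := by
      have h := congrArg Subtype.val (hm i j Z hi hj)
      have h1 := SH.KX_res s hORE hDM hVL hSL hFG x hi (m i)
      have h2 := SH.KX_res s hORE hDM hVL hSL hFG x hj (m j)
      rw [← h1, ← h2]
      exact h
    rw [sub_eq_sub_iff_add_eq_add] at h'
    rw [h', add_comm]
  let i0 : T := ⟨x, hxT⟩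
  refine ⟨p i0 + (m i0).1, ?_, ?_⟩
  · refine hDG X s _ fun z => ?_
    obtain ⟨i, hi⟩ := hcov z
    refine ⟨W i.1, hi, ?_⟩
    rw [hglue i0 i]
    refine (Dop _).add_mem ?_ (SH.Jm_le (hVA X s x (W i.1)).2.2.2.1 (m i).2)
    by_cases hi' : i.1 = x
    · simp only [p, hi', if_true]
      rw [hWx x rfl]; exact hP
    · simp only [p, hi', if_false]; exact (Dop _).zero_mem
  · have h1 : p i0 = P := by simp [p, i0]
    rw [h1, sub_add_cancel_left]
    refine Submodule.neg_mem _ ?_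
    have h2 : (m i0).1 ∈ Jm (O s (W i0.1)) (van s x (W i0.1)) := (m i0).2
    generalize (m i0).1 = e at h2
    rw [hWx i0.1 rfl] at h2
    exact h2

end Pool.Agent.Helper15.DAF
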