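import Pool.Agent.Helper15.DAF.Stmts2
import Pool.Agent.Helper15.DAF.H

open AlgebraicGeometry CategoryTheory TopologicalSpace Opposite

namespace Pool.Agent.Helper15.DAF

namespace SM

variable {X : Scheme.{0}} [IsIntegral X] (s : X ⟶ Spec (CommRingCat.of ℂ))

/-- Global vector fields as a subspace. -/
noncomputable def gSub : Submodule ℂ (Module.End ℂ (FF s)) where
  carrier := globalT s
  zero_mem' := fun V => ⟨fun a b => by simp, fun b _ => by
    simp⟩
  add_mem' := by
    intro u v hu hv V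
    refine ⟨fun a b => ?_, fun b hb => ?_⟩
    · simp only [LinearMap.add_apply, (hu V).1 a b, (hv V).1 a b]; ring
    · exact (O s V).add_mem ((hu V).2 b hb) ((hv V).2 b hb)
  smul_mem' := by
    intro c u hu V
    refine ⟨fun a b => ?_, fun b hb => ?_⟩
    · simp only [LinearMap.smul_apply, (hu V).1 a b, smul_add, mul_smul_comm]
    · exact (O s V).smul_mem ((hu V).2 b hb) c

theorem lie (u v : Module.End ℂ (FF s)) (hu : u ∈ globalT s) (hv : v ∈ globalT s) :
    u * v - v * u ∈ globalT s := by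
  intro V
  refine ⟨fun a b => ?_, fun b hb => ?_⟩
  · simp only [LinearMap.sub_apply, Module.End.mul_apply, (hu V).1, (hv V).1, map_add]
    ring
  · exact (O s V).sub_mem ((hu V).2 _ ((hv V).2 b hb)) ((hv V).2 _ ((hu V).2 b hb))

end SM

theorem st_MAIN (hH : ST_H) (hLO : ST_LOCAL) (hVA : ST_VAN) (hCP : ST_CPT) (hSM : ST_SMOOTH)
    (hNA : ST_NAK) (hCL : ST_CLOSEDPT) (hSP : ST_SPREAD) : ST_MAIN := by
  intro X _ _ s _ _ hM hfin V d hd
  obtain ⟨S, hS, hgen⟩ := hfin
  let N : Set (FF s) := {b | b ∈ O s V ∧ mulOp b * d ∈ GenT s V}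
  by_cases h1 : (1 : FF s) ∈ N
  · have h := h1.2
    rwa [SH.mulOp_one, one_mul] at h
  exfalso
  obtain ⟨x, hx, hxV, hNx⟩ := hCL X s V N
    ⟨(O s V).zero_mem, by
      have : (mulOp (0 : FF s) : Module.End ℂ (FF s)) = 0 := by ext z; simp [mulOp]
      rw [this, zero_mul]; exact Submodule.zero_mem _⟩
    (fun a ha => ha.1)
    (fun a ha b hb => ⟨(O s V).add_mem ha.1 hb.1, by
      have : (mulOp (a + b) : Module.End ℂ (FF s)) = mulOp a + mulOp b := by
        ext z; simp [mulOp, add_mul]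
      rw [this, add_mul]; exact Submodule.add_mem _ ha.2 hb.2⟩)
    (fun b hb a ha => ⟨(O s V).mul_mem hb ha.1, by
      rw [SH.mulOp_mul, mul_assoc]
      have h2 := ha.2
      unfold GenT at h2 ⊢
      generalize mulOp a * d = e at h2
      induction h2 using Submodule.span_induction with
      | mem e he =>
        obtain ⟨a', ha', v, hv, rfl⟩ := he
        exact Submodule.subset_span ⟨b * a', (O s V).mul_mem hb ha', v, hv, by
          rw [SH.mulOp_mul, mul_assoc]⟩
      | zero => rw [mul_zero]; exact Submodule.zero_mem _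
      | add e e' _ _ h h' => rw [mul_add]; exact Submodule.add_mem _ h h'
      | smul c e _ h => rw [mul_smul_comm]; exact Submodule.smul_mem _ c h⟩) h1
  obtain ⟨V1, hxV1, n, t, y, hc⟩ := hSM X s x
  have hva := hVA X s x V1
  have hPt : Pt (O s V1) (van s x V1) :=
    ⟨hva.1, hva.2.1, hva.2.2.1, hva.2.2.2.1, hva.2.2.2.2.1 hxV1, hCP X s x hx V1 hxV1⟩
  have hloc := hLO (FF s) (O s V1) (van s x V1) n t y hPt hc (SM.gSub s)
    (fun v hv => hv V1) (fun u hu v hv => SM.lie s u v hu hv)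
    ⟨S, fun a ha => (Algebra.mem_iInf.1 (hS a ha)) V1, fun P hP => by
      obtain ⟨Q, hQ, hPQ⟩ := hH X s hM x hx V1 hxV1 P hP
      exact ⟨Q, hgen Q hQ, hPQ⟩⟩
  obtain ⟨h, hh, hhm, hgenh⟩ := hNA (FF s) (O s V1) (van s x V1) n t y hPt hc (globalT s)
    (fun v hv => hv V1) hloc
  obtain ⟨b, hb, hbm, hbd⟩ := hSP X s V V1 x hxV hxV1 n t y hc h hh hhm hgenh d hd
  exact hbm (hNx ⟨hb, hbd⟩)

end Pool.Agent.Helper15.DAF
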