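import Pool.Agent.Helper15.DAF.Defs

/-!
# Rows of the project DAF (MP_c8969c_ag)
-/

open AlgebraicGeometry CategoryTheory TopologicalSpace Opposite

namespace Pool.Agent.Helper15.DAF

/-! ## Definitions for the proof -/

/-- `V` is the localisation of `B` at `f` (inside `K`). -/
structure IsLoc {K : Type} [Field K] [Algebra ℂ K] (B V : Subalgebra ℂ K) (f : K) : Prop where
  le : B ≤ V
  mem : f ∈ B
  ne : f ≠ 0
  inv : f⁻¹ ∈ V
  surj : ∀ a ∈ V, ∃ n : ℕ, f ^ n * a ∈ B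

/-- `m` is the ideal of a rational point of `B`. -/
structure Pt {K : Type} [Field K] [Algebra ℂ K] (B : Subalgebra ℂ K) (m : Set K) : Prop where
  zero : (0 : K) ∈ m
  add : ∀ a ∈ m, ∀ b ∈ m, a + b ∈ m
  mul : ∀ b ∈ B, ∀ a ∈ m, b * a ∈ m
  sub : ∀ a ∈ m, a ∈ B
  one : (1 : K) ∉ m
  res : ∀ b ∈ B, ∃ c : ℂ, b - algebraMap ℂ K c ∈ m

/-- The left ideal `Dop B · m`, as a space of operators. -/
noncomputable def Jm {K : Type} [Field K] [Algebra ℂ K] (B : Subalgebra ℂ K) (m : Set K) :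
    Submodule ℂ (Module.End ℂ K) :=
  Submodule.span ℂ {Q | ∃ P ∈ Dop B, ∃ g ∈ m, Q = P * mulOp g}

theorem mul_mem_Jm {K : Type} [Field K] [Algebra ℂ K] {B : Subalgebra ℂ K} {m : Set K}
    {P Q : Module.End ℂ K} (hP : P ∈ Dop B) (hQ : Q ∈ Jm B m) : P * Q ∈ Jm B m := by
  unfold Jm at hQ ⊢
  induction hQ using Submodule.span_induction with
  | mem x hx =>
    obtain ⟨R, hR, g, hg, rfl⟩ := hx
    exact Submodule.subset_span ⟨P * R, (Dop B).mul_mem hP hR, g, hg, by rw [mul_assoc]⟩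
  | zero => rw [mul_zero]; exact Submodule.zero_mem _
  | add x y _ _ hx hy => rw [mul_add]; exact Submodule.add_mem _ hx hy
  | smul c x _ hx => rw [mul_smul_comm]; exact Submodule.smul_mem _ c hx

/-- The delta module (contained in): operators modulo the left ideal generated by `m`. -/
abbrev Del {K : Type} [Field K] [Algebra ℂ K] (B : Subalgebra ℂ K) (m : Set K) : Type :=
  Module.End ℂ K ⧸ Jm B m

/-- The class of an operator. -/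
noncomputable def cls {K : Type} [Field K] [Algebra ℂ K] (B : Subalgebra ℂ K) (m : Set K)
    (P : Module.End ℂ K) : Del B m := Submodule.Quotient.mk P

/-- Left multiplication by `P ∈ Dop B` on `Del B m`. -/
noncomputable def act {K : Type} [Field K] [Algebra ℂ K] (B : Subalgebra ℂ K) (m : Set K)
    (P : Dop B) : Module.End ℂ (Del B m) :=
  (Jm B m).mapQ (Jm B m) (LinearMap.mulLeft ℂ (P : Module.End ℂ K))
    (fun _ hQ => mul_mem_Jm P.2 hQ)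

theorem act_cls {K : Type} [Field K] [Algebra ℂ K] (B : Subalgebra ℂ K) (m : Set K)
    (P : Dop B) (Q : Module.End ℂ K) :
    act B m P (cls B m Q) = cls B m ((P : Module.End ℂ K) * Q) := rfl

/-- The class of `1` spans `F 0`; `F (k+1) = F k + ∑ t_i F k`. -/
noncomputable def Fil {K : Type} [Field K] [Algebra ℂ K] (B : Subalgebra ℂ K) (m : Set K)
    {n : ℕ} (t : Fin n → Dop B) : ℕ → Submodule ℂ (Del B m)
  | 0 => Submodule.span ℂ {cls B m 1}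
  | k + 1 => Fil B m t k ⊔ ⨆ i : Fin n, (Fil B m t k).map (act B m (t i))

/-- `Um g m W` = sum of the images of `W` under the products of at most `m` elements of `g`. -/
noncomputable def Um {V : Type} [AddCommGroup V] [Module ℂ V] (g : Set (Module.End ℂ V)) :
    ℕ → Submodule ℂ V → Submodule ℂ V
  | 0, W => W
  | m + 1, W => Um g m W ⊔ ⨆ u ∈ g, (Um g m W).map u

/-- ordered monomials -/
noncomputable def tmon {K : Type} [Field K] [Algebra ℂ K] {n : ℕ} (t : Fin n → Module.End ℂ K)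
    (α : Fin n → ℕ) : Module.End ℂ K := (List.ofFn fun i => t i ^ α i).prod

/-! ## Algebra rows -/

/-- DERLOC: derivations extend to localisations. -/
def ST_DERLOC : Prop := ∀ (K : Type) [Field K] [Algebra ℂ K] (B V : Subalgebra ℂ K) (f : K),
  IsLoc B V f → Der B ⊆ Der V

/-- ORE: `Dop` of a localisation is the localisation. -/
def ST_ORE : Prop := ∀ (K : Type) [Field K] [Algebra ℂ K] (B V : Subalgebra ℂ K) (f : K),
  IsLoc B V f → B.FG → ∀ P ∈ Dop V, ∃ N : ℕ, mulOp (f ^ N) * P ∈ Dop B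

/-- UPPER: growth at most `(m+1)^r`. -/
def ST_UPPER : Prop := ∀ (V : Type) [AddCommGroup V] [Module ℂ V] (g : Set (Module.End ℂ V))
  (F : Submodule ℂ V) [FiniteDimensional ℂ F] (r : ℕ) (v : Fin r → Module.End ℂ V),
  (∀ i, v i ∈ g) → (∀ u ∈ g, ∀ w ∈ g, u * w - w * u ∈ g) →
  (∀ u ∈ g, ∃ c : Fin r → ℂ, ∃ w ∈ g, (∀ f ∈ F, w f ∈ F) ∧ u = w + ∑ i, c i • v i) →
  ∀ m, FiniteDimensional ℂ (Um g m F) ∧
    Module.finrank ℂ (Um g m F) ≤ (m + 1) ^ r * Module.finrank ℂ F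

/-- LOWER. -/
def ST_LOWER : Prop := ∀ (V : Type) [AddCommGroup V] [Module ℂ V] (g T : Set (Module.End ℂ V))
  (F : ℕ → Submodule ℂ V), (∀ t ∈ T, ∀ u ∈ g, t * u - u * t ∈ T) →
  (∀ j, F (j + 1) ≤ F j ⊔ ⨆ t ∈ T, (F j).map t) → (∀ j, ∀ t ∈ T, (F j).map t ≤ F (j + 1)) →
  (∀ j, F j ≤ F (j + 1)) → ∀ k c, F (k + 1) ≤ Um g c (F k) →
  ∀ j, F (k + j) ≤ Um g (c * j) (F k)

/-- NUM. -/
def ST_NUM : Prop := ∀ n r c C : ℕ, r < n → ¬ ∀ N : ℕ, (N + 1) ^ n ≤ (c * (n * N) + 1) ^ r * C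

/-- ABS: the contradiction, abstractly (from UPPER, LOWER, NUM). -/
def ST_ABS : Prop := ∀ (V : Type) [AddCommGroup V] [Module ℂ V] (g T : Set (Module.End ℂ V))
  (F : ℕ → Submodule ℂ V), (∀ t ∈ T, ∀ u ∈ g, t * u - u * t ∈ T) →
  (∀ j, F (j + 1) ≤ F j ⊔ ⨆ t ∈ T, (F j).map t) → (∀ j, ∀ t ∈ T, (F j).map t ≤ F (j + 1)) →
  (∀ j, F j ≤ F (j + 1)) → (∀ j, FiniteDimensional ℂ (F j)) →
  ∀ (n r k : ℕ), r < n → (∀ N : ℕ, (N + 1) ^ n ≤ Module.finrank ℂ (F (n * N))) →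
  (∀ x ∈ F (k + 1), ∃ c : ℕ, x ∈ Um g c (F k)) →
  ∀ v : Fin r → Module.End ℂ V, (∀ i, v i ∈ g) → (∀ u ∈ g, ∀ w ∈ g, u * w - w * u ∈ g) →
  (∀ u ∈ g, ∃ c : Fin r → ℂ, ∃ w ∈ g, (∀ f ∈ F k, w f ∈ F k) ∧ u = w + ∑ i, c i • v i) → False

/-- COORD: the filtration of the delta module. -/
def ST_COORD : Prop := ∀ (K : Type) [Field K] [Algebra ℂ K] (B : Subalgebra ℂ K) (m : Set K)
  (n : ℕ) (t : Fin n → Module.End ℂ K) (y : Fin n → K), Pt B m → IsCoord B n t y →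
  ∀ T : Fin n → Dop B, (∀ i, (T i : Module.End ℂ K) = t i) →
  (∀ k, ∀ b ∈ B, ∀ P : Dop B, (P : Module.End ℂ K) = mulOp b →
    ∀ z ∈ Fil B m T k, act B m P z ∈ Fil B m T k) ∧
  (∀ b ∈ m, ∀ P : Dop B, (P : Module.End ℂ K) = mulOp b → ∀ z ∈ Fil B m T 0, act B m P z = 0) ∧
  (∀ k, ∀ b ∈ m, ∀ P : Dop B, (P : Module.End ℂ K) = mulOp b →
    ∀ z ∈ Fil B m T (k + 1), act B m P z ∈ Fil B m T k) ∧
  (∀ k, ∀ d ∈ Der B, ∀ P : Dop B, (P : Module.End ℂ K) = d →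
    ∀ z ∈ Fil B m T k, act B m P z ∈ Fil B m T (k + 1)) ∧
  (∀ k, ∀ b ∈ m, ∀ d ∈ Der B, ∀ P : Dop B, (P : Module.End ℂ K) = mulOp b * d →
    ∀ z ∈ Fil B m T k, act B m P z ∈ Fil B m T k) ∧
  (∀ P : Dop B, ∃ k, cls B m (P : Module.End ℂ K) ∈ Fil B m T k) ∧
  (∀ k, FiniteDimensional ℂ (Fil B m T k))

/-- IND1: the ordered monomials are right independent over `K`. -/
def ST_IND1 : Prop := ∀ (K : Type) [Field K] [Algebra ℂ K] (B : Subalgebra ℂ K)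
  (n : ℕ) (t : Fin n → Module.End ℂ K) (y : Fin n → K), IsCoord B n t y →
  ∀ (A : Finset (Fin n → ℕ)) (c : (Fin n → ℕ) → K),
    ∑ α ∈ A, tmon t α * mulOp (c α) = 0 → ∀ α ∈ A, c α = 0

/-- IND2: elements of the left ideal generated by `m` have coefficients in `m` on the right. -/
def ST_IND2 : Prop := ∀ (K : Type) [Field K] [Algebra ℂ K] (B : Subalgebra ℂ K) (m : Set K)
  (n : ℕ) (t : Fin n → Module.End ℂ K) (y : Fin n → K), Pt B m → IsCoord B n t y →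
  ∀ P ∈ Jm B m, ∃ (A : Finset (Fin n → ℕ)) (c : (Fin n → ℕ) → K), (∀ α, c α ∈ m) ∧
    P = ∑ α ∈ A, tmon t α * mulOp (c α)

/-- IND3: lower bound for the dimensions (from IND1, IND2). -/
def ST_IND3 : Prop := ∀ (K : Type) [Field K] [Algebra ℂ K] (B : Subalgebra ℂ K) (m : Set K)
  (n : ℕ) (t : Fin n → Module.End ℂ K) (y : Fin n → K), Pt B m → IsCoord B n t y →
  ∀ T : Fin n → Dop B, (∀ i, (T i : Module.End ℂ K) = t i) →
  (∀ k, FiniteDimensional ℂ (Fil B m T k)) →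
  ∀ N : ℕ, (N + 1) ^ n ≤ Module.finrank ℂ (Fil B m T (n * N))

/-- LOC: the local theorem (from ABS, COORD, IND3). -/
def ST_LOCAL : Prop := ∀ (K : Type) [Field K] [Algebra ℂ K] (B : Subalgebra ℂ K) (m : Set K)
  (n : ℕ) (t : Fin n → Module.End ℂ K) (y : Fin n → K), Pt B m → IsCoord B n t y →
  ∀ g0 : Submodule ℂ (Module.End ℂ K), (∀ v ∈ g0, v ∈ Der B) →
  (∀ u ∈ g0, ∀ v ∈ g0, u * v - v * u ∈ g0) →
  (∃ S : Finset (Module.End ℂ K), (∀ a ∈ S, a ∈ Dop B) ∧ ∀ P ∈ Dop B,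
    ∃ Q ∈ Submodule.span ℂ {Q : Module.End ℂ K | ∃ u ∈ Algebra.adjoin ℂ (g0 : Set _),
      ∃ a ∈ S, Q = u * a}, P - Q ∈ Jm B m) →
  ∀ d ∈ Der B, ∃ v ∈ g0, ∃ e ∈ Submodule.span ℂ
    {e : Module.End ℂ K | ∃ a ∈ m, ∃ d' ∈ Der B, e = mulOp a * d'}, d = v + e

/-! ## Scheme rows -/

/-- SMONO -/
def ST_SMONO : Prop := ∀ (X : Scheme.{0}) [IsIntegral X] (s : X ⟶ Spec (CommRingCat.of ℂ))
  (V W : Aff X), W.U ≤ V.U → O s V ≤ O s W

/-- SLOC -/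
def ST_SLOC : Prop := ∀ (X : Scheme.{0}) [IsIntegral X] (s : X ⟶ Spec (CommRingCat.of ℂ))
  (V W : Aff X) (f : Γ(X, V.U)), W.U = X.basicOpen f → IsLoc (O s V) (O s W) (ev s V f)

/-- SGLUE -/
def ST_SGLUE : Prop := ∀ (X : Scheme.{0}) [IsIntegral X] (s : X ⟶ Spec (CommRingCat.of ℂ))
  (V : Aff X) (a : FF s), (∀ x ∈ V.U, ∃ W : Aff X, x ∈ W.U ∧ W.U ≤ V.U ∧ a ∈ O s W) → a ∈ O s V

/-- SBASIC -/
def ST_SBASIC : Prop := ∀ (X : Scheme.{0}) [IsIntegral X] (V : Aff X) (W : X.Opens) (x : X),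
  x ∈ V.U → x ∈ W → ∃ (f : Γ(X, V.U)) (Z : Aff X), Z.U = X.basicOpen f ∧ x ∈ Z.U ∧ Z.U ≤ W

/-- SFG -/
def ST_SFG : Prop := ∀ (X : Scheme.{0}) [IsIntegral X] (s : X ⟶ Spec (CommRingCat.of ℂ))
  [LocallyOfFiniteType s] (V : Aff X), (O s V).FG

/-- DMONO (from DERLOC, SMONO, SLOC, SGLUE, SBASIC) -/
def ST_DMONO : Prop := ∀ (X : Scheme.{0}) [IsIntegral X] (s : X ⟶ Spec (CommRingCat.of ℂ))
  (V W : Aff X), W.U ≤ V.U → Der (O s V) ⊆ Der (O s W) ∧ Dop (O s V) ≤ Dop (O s W)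

/-- DGLUE (from ORE, DMONO, SLOC, SBASIC, SFG) -/
def ST_DGLUE : Prop := ∀ (X : Scheme.{0}) [IsIntegral X] (s : X ⟶ Spec (CommRingCat.of ℂ))
  [LocallyOfFiniteType s] (Q : Module.End ℂ (FF s)),
  (∀ x : X, ∃ W : Aff X, x ∈ W.U ∧ Q ∈ Dop (O s W)) → Q ∈ globalD s

/-- VAN -/
def ST_VAN : Prop := ∀ (X : Scheme.{0}) [IsIntegral X] (s : X ⟶ Spec (CommRingCat.of ℂ))
  (x : X) (V : Aff X),
  (0 : FF s) ∈ van s x V ∧ (∀ a ∈ van s x V, ∀ b ∈ van s x V, a + b ∈ van s x V) ∧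
  (∀ b ∈ O s V, ∀ a ∈ van s x V, b * a ∈ van s x V) ∧ (∀ a ∈ van s x V, a ∈ O s V) ∧
  (x ∈ V.U → (1 : FF s) ∉ van s x V) ∧ (x ∉ V.U → (1 : FF s) ∈ van s x V)

/-- VANLOC -/
def ST_VANLOC : Prop := ∀ (X : Scheme.{0}) [IsIntegral X] (s : X ⟶ Spec (CommRingCat.of ℂ))
  (x : X) (V W : Aff X), (W.U ≤ V.U → van s x V ⊆ van s x W) ∧
  ∀ f : Γ(X, V.U), W.U = X.basicOpen f → ∀ a ∈ van s x W, ∃ n : ℕ, (ev s V f) ^ n * a ∈ van s x V

/-- CPT (Nullstellensatz) -/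
def ST_CPT : Prop := ∀ (X : Scheme.{0}) [IsIntegral X] (s : X ⟶ Spec (CommRingCat.of ℂ))
  [LocallyOfFiniteType s] (x : X), IsClosed ({x} : Set X) → ∀ V : Aff X, x ∈ V.U →
  ∀ b ∈ O s V, ∃ c : ℂ, b - algebraMap ℂ (FF s) c ∈ van s x V

/-- H: global operators surject onto the delta module (from ORE, DMONO, DGLUE, VAN, VANLOC). -/
def ST_H : Prop := ∀ (X : Scheme.{0}) [IsIntegral X] [CompactSpace X]
  (s : X ⟶ Spec (CommRingCat.of ℂ)) [LocallyOfFiniteType s],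
  (∀ M : QDModule s, CechOneZero s M) → ∀ x : X, IsClosed ({x} : Set X) →
  ∀ V : Aff X, x ∈ V.U → ∀ P ∈ Dop (O s V), ∃ Q ∈ globalD s, P - Q ∈ Jm (O s V) (van s x V)

end Pool.Agent.Helper15.DAF
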