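import Pool.Agent.Helper15.DAF.Stmts

/-!
# Second sheet of DAF: from the fibres to all affine open sets, smooth charts
-/

open AlgebraicGeometry CategoryTheory TopologicalSpace Opposite

namespace Pool.Agent.Helper15.DAF

/-- The operators `∑ a_i v_i` with functions `a_i` on `V` and global vector fields `v_i`. -/
noncomputable def GenT {X : Scheme.{0}} [IsIntegral X] (s : X ⟶ Spec (CommRingCat.of ℂ))
    (V : Aff X) : Submodule ℂ (Module.End ℂ (FF s)) :=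
  Submodule.span ℂ {e | ∃ a ∈ O s V, ∃ v ∈ globalT s, e = mulOp a * v}

/-- NAK (algebra; `h = det (1 - M)`). -/
def ST_NAK : Prop := ∀ (K : Type) [Field K] [Algebra ℂ K] (B : Subalgebra ℂ K) (m : Set K)
  (n : ℕ) (t : Fin n → Module.End ℂ K) (y : Fin n → K), Pt B m → IsCoord B n t y →
  ∀ g0 : Set (Module.End ℂ K), (∀ v ∈ g0, v ∈ Der B) →
  (∀ d ∈ Der B, ∃ v ∈ g0, ∃ e ∈ Submodule.span ℂ
    {e : Module.End ℂ K | ∃ a ∈ m, ∃ d' ∈ Der B, e = mulOp a * d'}, d = v + e) →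
  ∃ h ∈ B, h ∉ m ∧ ∀ d ∈ Der B, mulOp h * d ∈ Submodule.span ℂ
    {e : Module.End ℂ K | ∃ a ∈ B, ∃ v ∈ g0, e = mulOp a * v}

/-- DERORE: derivations of a localisation (as in ORE). -/
def ST_DERORE : Prop := ∀ (K : Type) [Field K] [Algebra ℂ K] (B V : Subalgebra ℂ K) (f : K),
  IsLoc B V f → B.FG → ∀ d ∈ Der V, ∃ N : ℕ, mulOp (f ^ N) * d ∈ Der B

/-- CLOSEDPT: a proper ideal of `O V` is contained in the ideal of a closed point of `X` in `V`. -/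
def ST_CLOSEDPT : Prop := ∀ (X : Scheme.{0}) [IsIntegral X] (s : X ⟶ Spec (CommRingCat.of ℂ))
  [LocallyOfFiniteType s] (V : Aff X) (N : Set (FF s)), (0 : FF s) ∈ N →
  (∀ a ∈ N, a ∈ O s V) → (∀ a ∈ N, ∀ b ∈ N, a + b ∈ N) → (∀ b ∈ O s V, ∀ a ∈ N, b * a ∈ N) →
  (1 : FF s) ∉ N → ∃ x : X, IsClosed ({x} : Set X) ∧ x ∈ V.U ∧ N ⊆ van s x V

/-- SPREAD: from a chart `V1` at `x` to an arbitrary affine `V` containing `x`. Take `Z` basic in
both (`exists_basicOpen_le_affine_inter`), use DERORE, VANLOC, SLOC, SMONO, DMONO. -/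
def ST_SPREAD : Prop := ∀ (X : Scheme.{0}) [IsIntegral X] (s : X ⟶ Spec (CommRingCat.of ℂ))
  [LocallyOfFiniteType s] (V V1 : Aff X) (x : X), x ∈ V.U → x ∈ V1.U →
  ∀ (n : ℕ) (t : Fin n → Module.End ℂ (FF s)) (y : Fin n → FF s), IsCoord (O s V1) n t y →
  ∀ h ∈ O s V1, h ∉ van s x V1 → (∀ d ∈ Der (O s V1), mulOp h * d ∈ GenT s V1) →
  ∀ d ∈ Der (O s V), ∃ b ∈ O s V, b ∉ van s x V ∧ mulOp b * d ∈ GenT s V

/-- SMOOTH: charts on smooth schemes. -/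
def ST_SMOOTH : Prop := ∀ (X : Scheme.{0}) [IsIntegral X] (s : X ⟶ Spec (CommRingCat.of ℂ))
  [LocallyOfFiniteType s] [Smooth s] (x : X), ∃ V1 : Aff X, x ∈ V1.U ∧
    ∃ (n : ℕ) (t : Fin n → Module.End ℂ (FF s)) (y : Fin n → FF s), IsCoord (O s V1) n t y

/-- The main theorem. -/
def ST_MAIN : Prop := ∀ (X : Scheme.{0}) [IsIntegral X] [CompactSpace X]
  (s : X ⟶ Spec (CommRingCat.of ℂ)) [LocallyOfFiniteType s] [Smooth s],
  (∀ M : QDModule s, CechOneZero s M) → FiniteOverVectorFields s →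
  ∀ V : Aff X, ∀ d ∈ Der (O s V), d ∈ GenT s V

end Pool.Agent.Helper15.DAF
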